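import Mathlib
import Pool.Agent.BRW.Defs
import Pool.Agent.BRW.St
import Pool.Agent.BRW.St2
import Pool.Agent.BRW.MCnt
import Pool.Agent.BRW.MSmc
import Pool.Agent.BRW.MCla
import Pool.Agent.BRW.MClb
import Pool.Agent.BRW.MCmp
import Pool.Agent.BRW.MClf
import Pool.Agent.BRW.MCbj
import Pool.Agent.BRW.MVal
import Pool.Agent.BRW.MLgc
import Pool.Agent.BRW.MEqv
import Pool.Agent.BRW.MHit
import Pool.Agent.BRW.FIS
import Pool.Agent.BRW.MGap2
import Pool.Agent.BRW.MNum2
import Pool.Agent.BRW.MGrp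
import Pool.Agent.DQE.Defs
import Pool.Agent.DQE.St
import Pool.Agent.DQE.MGam
import Pool.Agent.DQE.MFrm
import Pool.Agent.DQE.MLfr
import Pool.Agent.DQE.MTcp
import Pool.Agent.DQE.MAsm
import Pool.Agent.DQE.MCll
import Pool.Agent.BRD.Two
import Pool.Agent.BRD.Jod
import Pool.Agent.BRD.Fin

set_option autoImplicit false

/-!
# Graphs of small rank have small quantifier depth in counting logic (MP_87b449_lc)

There are absolute constants `A, N` such that for every graph `G` of order `n ≥ N` that is a union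
of classes of a coherent configuration with at most `R ≤ (log log n) / A` classes there is some
`k ≤ n ^ (1 - 4 ^ (-(2 R + 2)))` such that `G` is identified by `k` rounds of the bijective game
(quantifier depth `k`) and by the bijective game with `k` pebbles (width `k`).
-/

namespace Pool.Agent.Results.MP_87b449_lc.BoundedRankDepth

open Pool.Agent.BRW Pool.Agent.DQE

theorem result :
    ∃ A N : ℕ, ∀ (V κ : Type) [Fintype V] (G : SimpleGraph V) (c : V → V → κ) (R : ℕ),
      N ≤ Fintype.card V →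
      (A : ℝ) * (R : ℝ) ≤ Real.log (Real.log (Fintype.card V : ℝ)) →
      Coherent c →
      (Set.range (fun p : V × V => c p.1 p.2)).ncard ≤ R →
      (∀ x y x' y' : V, c x y = c x' y' → (G.Adj x y ↔ G.Adj x' y')) →
      ∃ k : ℕ, (k : ℝ) ≤ (Fintype.card V : ℝ) ^ (1 - 1 / (4 : ℝ) ^ (2 * R + 2)) ∧
        (∀ (W : Type) [Fintype W] (H : SimpleGraph W),
          (∃ D : List V → List W → Prop, D [] [] ∧
            (∀ a b, D a b → ∀ p ∈ a.zip b, ∀ q ∈ a.zip b,
              (p.1 = q.1 ↔ p.2 = q.2) ∧ (G.Adj p.1 q.1 ↔ H.Adj p.2 q.2)) ∧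
            (∀ a b, D a b → a.length < k →
              ∃ f : V ≃ W, ∀ v : V, D (v :: a) (f v :: b))) →
          Nonempty (G ≃g H)) ∧
        (∀ (W : Type) [Fintype W] [DecidableEq W] (H : SimpleGraph W),
          (∃ D : (Fin k → V) → (Fin k → W) → Prop,
            (∀ a b, D a b → ∀ i j : Fin k,
                (a i = a j ↔ b i = b j) ∧ (G.Adj (a i) (a j) ↔ H.Adj (b i) (b j))) ∧
            (∀ a b, D a b → ∀ i : Fin k, ∃ f : V ≃ W,
                ∀ v : V, D (Function.update a i v) (Function.update b i (f v))) ∧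
            (∃ f : V ≃ W, ∀ v : V, D (fun _ => v) (fun _ => f v))) →
          Nonempty (G ≃g H)) := by
  have hC := cnt
  have hV := vals hC
  have hA := cla hC hV
  have hBB := clb hC hV hA
  have hF := clf hV hA hBB (smc hC hV hA hBB fis) (lgc hC hV hA) (cmp hC hV hA hBB)
  have hGam := gam
  have hTcp := tcp hGam
  have hCll := cll hGam hTcp (asm2 cbj)
  obtain ⟨A, N, hN⟩ := Pool.Agent.BRD.brd hGam hTcp hCll hC hV hA hBB hF (eqv hC hV)
    (gap2 hC hV) hit num2
  refine ⟨A, N, ?_⟩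
  intro V κ _ G c R h1 h2 h3 h4 h5
  obtain ⟨k, hk, hD⟩ := hN V κ G c R h1 h2 h3 h4 h5
  exact ⟨k, hk, lfr k G hD, (frm hGam V k G hD).2⟩

/-- The case of the orbital configuration: graphs whose automorphism group has at most `R` orbits
on the ordered pairs of vertices. -/
theorem orbital_case :
    ∃ A N : ℕ, ∀ (V : Type) [Fintype V] (G : SimpleGraph V) (R : ℕ),
      N ≤ Fintype.card V →
      (A : ℝ) * (R : ℝ) ≤ Real.log (Real.log (Fintype.card V : ℝ)) →
      (∃ P : Finset (V × V), P.card ≤ R ∧ ∀ x y : V, ∃ g : G ≃g G, (g x, g y) ∈ P) →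
      ∃ k : ℕ, (k : ℝ) ≤ (Fintype.card V : ℝ) ^ (1 - 1 / (4 : ℝ) ^ (2 * R + 2)) ∧
        (∀ (W : Type) [Fintype W] (H : SimpleGraph W),
          (∃ D : List V → List W → Prop, D [] [] ∧
            (∀ a b, D a b → ∀ p ∈ a.zip b, ∀ q ∈ a.zip b,
              (p.1 = q.1 ↔ p.2 = q.2) ∧ (G.Adj p.1 q.1 ↔ H.Adj p.2 q.2)) ∧
            (∀ a b, D a b → a.length < k →
              ∃ f : V ≃ W, ∀ v : V, D (v :: a) (f v :: b))) →
          Nonempty (G ≃g H)) ∧
        Identifies k G := by
  obtain ⟨A, N, hN⟩ := result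
  refine ⟨A, N, ?_⟩
  intro V _ G R hV hA hP
  refine hN V (Set (V × V)) G (orbl G) R hV hA (orbl_coherent G) ?_ ?_
  · obtain ⟨P, hPR, hP⟩ := hP
    have hsub : Set.range (fun p : V × V => orbl G p.1 p.2) ⊆
        (fun p : V × V => orbl G p.1 p.2) '' (P : Set (V × V)) := by
      rintro _ ⟨p, rfl⟩
      obtain ⟨g, hg⟩ := hP p.1 p.2
      exact ⟨(g p.1, g p.2), hg, orbl_map G g p.1 p.2⟩
    have hfin : ((fun p : V × V => orbl G p.1 p.2) '' (P : Set (V × V))).Finite :=
      P.finite_toSet.image _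
    calc (Set.range (fun p : V × V => orbl G p.1 p.2)).ncard ≤
          ((fun p : V × V => orbl G p.1 p.2) '' (P : Set (V × V))).ncard :=
          Set.ncard_le_ncard hsub hfin
      _ ≤ (P : Set (V × V)).ncard := Set.ncard_image_le P.finite_toSet
      _ = P.card := Set.ncard_coe_finset P
      _ ≤ R := hPR
  · intro x y x' y' h
    obtain ⟨g, rfl, rfl⟩ := orbl_eq G h
    exact (g.map_adj_iff).symm

end Pool.Agent.Results.MP_87b449_lc.BoundedRankDepth
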