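import Mathlib
import Pool.Agent.BRW.Defs
import Pool.Agent.BRW.St
import Pool.Agent.BRW.MCnt
import Pool.Agent.BRW.MCbj
import Pool.Agent.BRW.MVal
import Pool.Agent.WLE.Defs
import Pool.Agent.WLE.St
import Pool.Agent.WLE.MMon
import Pool.Agent.WLE.LOC
import Pool.Agent.WLE.MDep
import Pool.Agent.WLE.MSmp
import Pool.Agent.WLE.MFsh
import Pool.Agent.WLE.MSng
import Pool.Agent.WLE.MKey
import Pool.Agent.WLE.MNmd
import Pool.Agent.WLE.MCut
import Pool.Agent.WLE.MApp
import Pool.Agent.WLE.MCmb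
import Pool.Agent.DQE.Defs
import Pool.Agent.DQE.St
import Pool.Agent.DQE.MGam
import Pool.Agent.DQE.MFrm
import Pool.Agent.DQE.MLfr
import Pool.Agent.DQE.MTcp
import Pool.Agent.DQE.MAsm
import Pool.Agent.DQE.MCll
import Pool.Agent.DQE.MPad
import Pool.Agent.DQE.MTch
import Pool.Agent.DQE.MDga
import Pool.Agent.DQE.MGr1
import Pool.Agent.DQE.MDg1
import Pool.Agent.DQE.MWkk
import Pool.Agent.DQE.MDi1
import Pool.Agent.DQE.MQmo
import Pool.Agent.DQE.MMii
import Pool.Agent.DQE.MTau
import Pool.Agent.DQE.MStc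
import Pool.Agent.DQE.MStb
import Pool.Agent.DQE.MSub
import Pool.Agent.DQE.MNuc
import Pool.Agent.DQE.MLst
import Pool.Agent.DQE.MFnl
import Pool.Agent.DQE.MEps

set_option autoImplicit false

/-!
# The quantifier depth of counting logic is at most (1/8 + o(1)) n (MP_87b449_lc)

For every `ε > 0` every graph `G` of sufficiently large order `n` has
`W#(G) ≤ D#(G) ≤ (1/8 + ε) n`: for some `k ≤ (1/8 + ε) n` the graph is identified by `k` rounds of
the bijective game (quantifier depth `k`), and by the bijective game with `k` pebbles (width `k`).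
-/

namespace Pool.Agent.Results.MP_87b449_lc.DepthOneEighth

open Pool.Agent.BRW Pool.Agent.WLE Pool.Agent.DQE

theorem result :
    ∀ ε : ℝ, 0 < ε → ∃ N : ℕ, ∀ (V : Type) [Fintype V] (G : SimpleGraph V),
      N ≤ Fintype.card V →
      ∃ k : ℕ, (k : ℝ) ≤ (1 / 8 + ε) * (Fintype.card V : ℝ) ∧
        (∀ (W : Type) [Fintype W] (H : SimpleGraph W),
          (∃ R : List V → List W → Prop, R [] [] ∧
            (∀ a b, R a b → ∀ p ∈ a.zip b, ∀ q ∈ a.zip b,
              (p.1 = q.1 ↔ p.2 = q.2) ∧ (G.Adj p.1 q.1 ↔ H.Adj p.2 q.2)) ∧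
            (∀ a b, R a b → a.length < k →
              ∃ f : V ≃ W, ∀ v : V, R (v :: a) (f v :: b))) →
          Nonempty (G ≃g H)) ∧
        (∀ (W : Type) [Fintype W] [DecidableEq W] (H : SimpleGraph W),
          (∃ R : (Fin k → V) → (Fin k → W) → Prop,
            (∀ a b, R a b → ∀ i j : Fin k,
                (a i = a j ↔ b i = b j) ∧ (G.Adj (a i) (a j) ↔ H.Adj (b i) (b j))) ∧
            (∀ a b, R a b → ∀ i : Fin k, ∃ f : V ≃ W,
                ∀ v : V, R (Function.update a i v) (Function.update b i (f v))) ∧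
            (∃ f : V ≃ W, ∀ v : V, R (fun _ => v) (fun _ => f v))) →
          Nonempty (G ≃g H)) := by
  have hMon := mon
  have hLoc := loc
  have hDep := dep
  have hKey := key hLoc (smp hDep) sng hDep
  have hNmd := nmd hLoc hDep
  have hNuc := nuc hMon hKey hNmd (app cut hDep) (cmb hDep (fsh hDep))
  have hGam := gam
  have hTcp := tcp hGam
  have hTch := tch
  have hDga := dga hLoc
  have hGr1 := gr1 hMon hTcp
  have hDg1 := dg1 hMon hTch hDga
  have hDi1 := di1 hLoc hMon wkk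
  have hMii := mii hMon hTcp (qmo hTch)
  have hStb := stb hTch (tau_le hTch) stc
  have hCll := cll hGam hTcp (asm2 cbj)
  have hLst := lst hGam hTcp (pad hTcp) hCll (sub hMon) hNuc hDep
  have hEps := eps (fnl hMon hTcp hGr1 hDg1 hDi1 hMii hStb hLst)
  intro ε hε
  obtain ⟨N, hN⟩ := hEps ε hε
  refine ⟨N, ?_⟩
  intro V _ G hV
  obtain ⟨k, hk, hD⟩ := hN V G hV
  exact ⟨k, hk, lfr k G hD, (frm hGam V k G hD).2⟩

end Pool.Agent.Results.MP_87b449_lc.DepthOneEighth
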