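import Mathlib
import Pool.Agent.BRW.Defs
import Pool.Agent.CLB.Defs
import Pool.Agent.CLB.St
import Pool.Agent.CLB.MNis
import Pool.Agent.CLB.MPth
import Pool.Agent.CLB.MBgu
import Pool.Agent.CLB.MGam
import Pool.Agent.CLB.MSpl
import Pool.Agent.CLB.MMin
import Pool.Agent.CLB.MSep
import Pool.Agent.CLB.MTri
import Pool.Agent.CLB.MAvg
import Pool.Agent.CLB.GEN
import Pool.Agent.CLB.MBin
import Pool.Agent.CLB.MNum
import Pool.Agent.CLB.MMkv
import Pool.Agent.CLB.MSiz
import Pool.Agent.CLB.MRnd
import Pool.Agent.CLB.MFin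

set_option autoImplicit false

/-!
# Graphs of order n whose width in counting logic exceeds n/50 (MP_87b449_lc)

For every sufficiently large `n` divisible by `8` there is a graph of order `n` that is not
identified by `k`-variable counting logic for any `k ≤ n / 50`.
-/

namespace Pool.Agent.Results.MP_87b449_lc.WidthOneFiftieth

open Pool.Agent.BRW Pool.Agent.CLB

theorem result :
    ∃ n₀ : ℕ, ∀ n : ℕ, n₀ ≤ n → 8 ∣ n →
      ∃ (V : Type) (_ : Fintype V) (G : SimpleGraph V), Fintype.card V = n ∧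
        ∀ k : ℕ, (k : ℝ) ≤ (n : ℝ) / 50 →
          ¬ ∀ (W : Type) [Fintype W] [DecidableEq W] (H : SimpleGraph W),
            (∃ R : (Fin k → V) → (Fin k → W) → Prop,
              (∀ a b, R a b → ∀ i j : Fin k,
                  (a i = a j ↔ b i = b j) ∧ (G.Adj (a i) (a j) ↔ H.Adj (b i) (b j))) ∧
              (∀ a b, R a b → ∀ i : Fin k, ∃ f : V ≃ W,
                  ∀ v : V, R (Function.update a i v) (Function.update b i (f v))) ∧
              (∃ f : V ≃ W, ∀ v : V, R (fun _ => v) (fun _ => f v))) →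
            Nonempty (G ≃g H) := by
  obtain ⟨q0, h⟩ := fin (rnd (siz (mkv avg) gen bin num) trc) (sep splt minc) (gam pth bgu) nis
  refine ⟨8 * q0, ?_⟩
  rintro n hn ⟨q, rfl⟩
  obtain ⟨G, hG⟩ := h q (by omega)
  refine ⟨Pt q × Z, inferInstance, G, ?_, ?_⟩
  · simp only [Fintype.card_prod, Fintype.card_fin, Fintype.card_bool, ZMod.card]
    ring
  · intro k hk
    refine hG k ?_
    rw [Nat.le_div_iff_mul_le (by norm_num)]
    have h1 : (k : ℝ) * 25 ≤ 4 * q := by
      push_cast at hk
      linarith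
    exact_mod_cast h1

end Pool.Agent.Results.MP_87b449_lc.WidthOneFiftieth
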